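import Mathlib

/-!
# Multiparty protocols against a mixed adversary with non-rushing fail-stops: definitions

`n` parties, secure point-to-point channels and a broadcast channel, synchronous rounds.
A mixed adversary corrupts a set `act` of parties actively, a set `pas` passively and lets parties
fail-stop. At the start of a round it names the parties that fail-stop; these send nothing
in this round and later, and the adversary does not see what they would have sent
(non-rushing fails); it never sees their state.
-/

set_option autoImplicit false

namespace Pool.Agent.Helper90.RC

/-- The joint law of `n` independent random variables with the laws `μ 0, ..., μ (n - 1)`. -/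
noncomputable def indep {α : Type} : (n : ℕ) → (Fin n → PMF α) → PMF (Fin n → α)
  | 0, _ => PMF.pure fun p => p.elim0
  | n + 1, μ => (μ 0).bind fun a => (indep n fun p => μ p.succ).map fun ω => Fin.cons a ω

/-- The probability of the event `E` under the law `μ`. -/
noncomputable def prob {Ω : Type} (μ : PMF Ω) (E : Set Ω) : ℝ := (μ.toOuterMeasure E).toReal

/-- What one party receives in one round: for every sender the message on the secure channel
and the broadcast message (`none`: nothing was sent). -/
abbrev Rcv (n : ℕ) (M B : Type) := Fin n → Option M × Option B

/-- A protocol for `n` parties with inputs in `X` and outputs in `Y`. The party `p` has its own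
random tape with the law `tapeLaw p`. In the round with number `l.length` a party that
has received `l` so far sends the messages `(send p x t l).1 q` to the parties `q` and
broadcasts `(send p x t l).2`. At the end it outputs an element of `Y` or `none` (abort). -/
structure Protocol (n : ℕ) (X Y : Type) where
  Tape : Type
  M : Type
  B : Type
  tapeLaw : Fin n → PMF Tape
  send : Fin n → X → Tape → List (Rcv n M B) → (Fin n → M) × B
  out : Fin n → X → Tape → List (Rcv n M B) → Option Y

/-- The law of the (independent) random tapes of all parties. -/
noncomputable def Protocol.law {n : ℕ} {X Y : Type} (P : Protocol n X Y) :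
    PMF (Fin n → P.Tape) := indep n P.tapeLaw

/-- The restriction of the data `g` of all parties to the parties in `S`. -/
def mask {n : ℕ} {α : Type} (S : Finset (Fin n)) (g : Fin n → α) : Fin n → Option α :=
  fun p => if p ∈ S then some (g p) else none

/-- What the adversary knows at the start of a round: the number of the round and the inputs,
the random tapes and everything received so far of the corrupted parties. -/
structure View (n : ℕ) (X T M B : Type) where
  round : ℕ
  inp : Fin n → Option X
  tape : Fin n → Option T
  hist : Fin n → Option (List (Rcv n M B))

/-- A mixed adversary (randomised, with unbounded computational power). `crash` names the parties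
that fail-stop at the start of a round; `send` gives the messages of the active parties,
it may depend on what the corrupted parties receive from the other parties in the same round
(rushing active parties); `out` is the output of the adversary at the end. -/
structure Adversary {n : ℕ} {X Y : Type} (P : Protocol n X Y) where
  act : Finset (Fin n)
  pas : Finset (Fin n)
  Coins : Type
  Out : Type
  coinLaw : PMF Coins
  crash : Coins → View n X P.Tape P.M P.B → Finset (Fin n)
  send : Coins → View n X P.Tape P.M P.B → (Fin n → Option (Rcv n P.M P.B)) →
    Fin n → (Fin n → Option P.M) × Option P.B
  out : Coins → View n X P.Tape P.M P.B → Out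

/-- The state of an execution: the parties that have fail-stopped and everything that every
party has received. -/
structure State (n : ℕ) (M B : Type) where
  crashed : Finset (Fin n)
  hist : Fin n → List (Rcv n M B)

namespace Adversary

variable {n : ℕ} {X Y : Type} {P : Protocol n X Y} (A : Adversary P)

/-- The view of the adversary in the state `s` at the start of round `i`. -/
def view (x : Fin n → X) (ω : Fin n → P.Tape) (i : ℕ) (s : State n P.M P.B) :
    View n X P.Tape P.M P.B :=
  ⟨i, mask (A.act ∪ A.pas) x, mask (A.act ∪ A.pas) ω, mask (A.act ∪ A.pas) s.hist⟩

/-- The parties that have fail-stopped after the start of round `i`. -/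
def failed (x : Fin n → X) (ω : Fin n → P.Tape) (c : A.Coins) (i : ℕ) (s : State n P.M P.B) :
    Finset (Fin n) :=
  s.crashed ∪ (A.crash c (A.view x ω i s) \ (A.act ∪ A.pas))

/-- What the party `q` receives in round `i` from the parties which are not actively corrupted. -/
def honest (x : Fin n → X) (ω : Fin n → P.Tape) (c : A.Coins) (i : ℕ) (s : State n P.M P.B)
    (q : Fin n) : Rcv n P.M P.B := fun p =>
  if p ∈ A.act ∪ A.failed x ω c i s then (none, none)
  else (some ((P.send p (x p) (ω p) (s.hist p)).1 q), some (P.send p (x p) (ω p) (s.hist p)).2)

/-- The messages of the active parties in round `i`. -/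
def active (x : Fin n → X) (ω : Fin n → P.Tape) (c : A.Coins) (i : ℕ) (s : State n P.M P.B) :
    Fin n → (Fin n → Option P.M) × Option P.B :=
  A.send c (A.view x ω i s) (mask (A.act ∪ A.pas) (A.honest x ω c i s))

/-- Round `i` of the execution. -/
def step (x : Fin n → X) (ω : Fin n → P.Tape) (c : A.Coins) (i : ℕ) (s : State n P.M P.B) :
    State n P.M P.B :=
  ⟨A.failed x ω c i s, fun q => s.hist q ++
    [fun p => if p ∈ A.act then ((A.active x ω c i s p).1 q, (A.active x ω c i s p).2)
      else A.honest x ω c i s q p]⟩

/-- The state after `i` rounds with inputs `x`, random tapes `ω` and coins `c` of the adversary. -/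
def run (x : Fin n → X) (ω : Fin n → P.Tape) (c : A.Coins) : ℕ → State n P.M P.B
  | 0 => ⟨∅, fun _ => []⟩
  | i + 1 => A.step x ω c i (run x ω c i)

/-- The result of the real execution with `r` rounds: the output of the adversary and the outputs
of all parties that are neither active nor failed. -/
def real (r : ℕ) (x : Fin n → X) (ω : Fin n → P.Tape) (c : A.Coins) :
    A.Out × (Fin n → Option (Option Y)) :=
  (A.out c (A.view x ω r (A.run x ω c r)),
    fun p => if p ∈ A.act ∪ (A.run x ω c r).crashed then none
      else some (P.out p (x p) (ω p) ((A.run x ω c r).hist p)))

/-- The law of the result of the real execution. -/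
noncomputable def realLaw (r : ℕ) (x : Fin n → X) : PMF (A.Out × (Fin n → Option (Option Y))) :=
  P.law.bind fun ω => A.coinLaw.map fun c => A.real r x ω c

/-- The corruption triple satisfies `2 t_a + 2 t_p + t_f < n` in every execution. -/
def Legal (r : ℕ) : Prop :=
  Disjoint A.act A.pas ∧ ∀ (x : Fin n → X) (ω : Fin n → P.Tape) (c : A.Coins),
    2 * A.act.card + 2 * A.pas.card + (A.run x ω c r).crashed.card < n

/-- The messages of the active parties do not depend on the messages of the other parties in the
same round. -/
def NonRushing : Prop := ∀ c v m m', A.send c v m = A.send c v m'

end Adversary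

/-- An ideal adversary (simulator): it sees the inputs of the corrupted parties, chooses the
inputs of the active parties, the parties that fail-stop before they have given their input
(these get a default input) and whether the honest parties abort (then it gets no output).
Without abort it gets the output, it may then let more parties fail-stop, and it gives its own
output. -/
structure Simulator (n : ℕ) (X Y Out : Type) where
  Coins : Type
  coinLaw : PMF Coins
  inp : Coins → (Fin n → Option X) → Fin n → X
  crash : Coins → (Fin n → Option X) → Finset (Fin n)
  abort : Coins → (Fin n → Option X) → Bool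
  late : Coins → (Fin n → Option X) → Option Y → Finset (Fin n)
  out : Coins → (Fin n → Option X) → Option Y → Out

namespace Simulator

variable {n : ℕ} {X Y Out : Type} (S : Simulator n X Y Out) (act pas : Finset (Fin n))
  (f : (Fin n → X) → Y) (d : Fin n → X)

/-- The parties that fail-stop before they have given their input. -/
def early (x : Fin n → X) (c : S.Coins) : Finset (Fin n) :=
  S.crash c (mask (act ∪ pas) x) \ (act ∪ pas)

/-- The inputs on which the trusted party evaluates the function: active parties have chosen
inputs, parties that failed early the default inputs `d`, all others their own inputs. -/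
def inputs (x : Fin n → X) (c : S.Coins) : Fin n → X := fun p =>
  if p ∈ act then S.inp c (mask (act ∪ pas) x) p
  else if p ∈ S.early act pas x c then d p else x p

/-- The output given by the trusted party (`none` after an abort). -/
def result (x : Fin n → X) (c : S.Coins) : Option Y :=
  if S.abort c (mask (act ∪ pas) x) then none else some (f (S.inputs act pas d x c))

/-- All parties that have fail-stopped at the end. -/
def failed (x : Fin n → X) (c : S.Coins) : Finset (Fin n) :=
  S.early act pas x c ∪
    (S.late c (mask (act ∪ pas) x) (S.result act pas f d x c) \ (act ∪ pas))

/-- The result of the ideal execution: the output of the ideal adversary and the outputs of all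
parties that are neither active nor failed. -/
def ideal (x : Fin n → X) (c : S.Coins) : Out × (Fin n → Option (Option Y)) :=
  (S.out c (mask (act ∪ pas) x) (S.result act pas f d x c),
    fun p => if p ∈ act ∪ S.failed act pas f d x c then none
      else some (S.result act pas f d x c))

/-- The law of the result of the ideal execution. -/
noncomputable def idealLaw (x : Fin n → X) : PMF (Out × (Fin n → Option (Option Y))) :=
  S.coinLaw.map fun c => S.ideal act pas f d x c

/-- The ideal adversary obeys the same bound for the corruption triple. -/
def Legal : Prop := ∀ (x : Fin n → X) (c : S.Coins),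
  2 * act.card + 2 * pas.card + (S.failed act pas f d x c).card < n

end Simulator

/-- `ε` is negligible: smaller than every inverse power of the security parameter `κ`. -/
def Negligible (ε : ℕ → ℝ) : Prop :=
  ∀ m : ℕ, ∃ N : ℕ, ∀ κ : ℕ, N ≤ κ → |ε κ| * (κ : ℝ) ^ m ≤ 1

/-- What every party has received after `i` rounds if nobody is corrupted. -/
def Protocol.clean {n : ℕ} {X Y : Type} (P : Protocol n X Y) (x : Fin n → X)
    (ω : Fin n → P.Tape) : ℕ → Fin n → List (Rcv n P.M P.B)
  | 0 => fun _ => []
  | i + 1 => fun q => P.clean x ω i q ++
      [fun p => (some ((P.send p (x p) (ω p) (P.clean x ω i p)).1 q),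
        some (P.send p (x p) (ω p) (P.clean x ω i p)).2)]

/-- A family of `r`-round protocols (one for every security parameter `κ`) is correct for `f`
if without corruptions all parties output `f x` except with negligible probability. -/
def Correct {n : ℕ} {X Y : Type} (f : (Fin n → X) → Y) (r : ℕ) (P : ℕ → Protocol n X Y) :
    Prop :=
  ∃ ε : ℕ → ℝ, Negligible ε ∧ ∀ (κ : ℕ) (x : Fin n → X),
    prob (P κ).law {ω | ∃ p, (P κ).out p (x p) (ω p) ((P κ).clean x ω r p) ≠ some (f x)} ≤ ε κ

/-- A family of `r`-round protocols is fair and dynamically statistically secure for `f` (with
default inputs `d`): it is correct, and for every adversary with a corruption triple such that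
`2 t_a + 2 t_p + t_f < n` there is an ideal adversary (with the same active and passive parties)
such that the statistical distance of the real and the ideal result is negligible. If `rushing`
is `false` then only adversaries whose active parties are not rushing are considered. -/
def FairSecure {n : ℕ} {X Y : Type} (rushing : Bool) (f : (Fin n → X) → Y) (d : Fin n → X)
    (r : ℕ) (P : ℕ → Protocol n X Y) : Prop :=
  Correct f r P ∧
  ∀ A : (κ : ℕ) → Adversary (P κ), (∀ κ, (A κ).Legal r) →
    (rushing = false → ∀ κ, (A κ).NonRushing) →
    ∃ S : (κ : ℕ) → Simulator n X Y (A κ).Out,
      (∀ κ, (S κ).Legal (A κ).act (A κ).pas f d) ∧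
      ∃ ε : ℕ → ℝ, Negligible ε ∧
        ∀ (κ : ℕ) (x : Fin n → X) (E : Set ((A κ).Out × (Fin n → Option (Option Y)))),
          |prob ((A κ).realLaw r x) E -
            prob ((S κ).idealLaw (A κ).act (A κ).pas f d x) E| ≤ ε κ

/-- Every function with finite domain and range has an `r`-round fair `n`-party protocol that is
dynamically statistically secure (with some default inputs). -/
def AllFair (rushing : Bool) (n r : ℕ) : Prop :=
  ∀ (X Y : Type) [Fintype X] [Nonempty X] [Fintype Y] (f : (Fin n → X) → Y),
    ∃ (d : Fin n → X) (P : ℕ → Protocol n X Y), FairSecure rushing f d r P

/-- The least number of rounds (`⊤` if there is none). -/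
noncomputable def R (rushing : Bool) (n : ℕ) : ℕ∞ :=
  ⨅ r ∈ {r : ℕ | AllFair rushing n r}, (r : ℕ∞)

/-- The Boolean function of inputs in `ZMod 3` which tells whether their sum is zero. -/
def sumZero (n : ℕ) : (Fin n → ZMod 3) → Bool := fun x => decide (∑ p, x p = 0)

end Pool.Agent.Helper90.RC
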