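import Mathlib
import Pool.Agent.Helper90.RC.Defs

/-! # Elementary facts on discrete probabilities -/

set_option autoImplicit false

namespace Pool.Agent.Helper90.RC

open Finset

section
variable {Ω Ω' : Type}

theorem outer_le_one (μ : PMF Ω) (E : Set Ω) : μ.toOuterMeasure E ≤ 1 := by
  rw [PMF.toOuterMeasure_apply, ← μ.tsum_coe]
  exact ENNReal.tsum_le_tsum fun ω => Set.indicator_le_self' (fun _ _ => bot_le) ω

theorem outer_ne_top (μ : PMF Ω) (E : Set Ω) : μ.toOuterMeasure E ≠ ⊤ :=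
  ne_top_of_le_ne_top ENNReal.one_ne_top (outer_le_one μ E)

theorem prob_nonneg (μ : PMF Ω) (E : Set Ω) : 0 ≤ prob μ E := ENNReal.toReal_nonneg

theorem prob_mono (μ : PMF Ω) {E F : Set Ω} (h : ∀ ω, ω ∈ E → ω ∈ F) : prob μ E ≤ prob μ F :=
  ENNReal.toReal_mono (outer_ne_top μ F) (μ.toOuterMeasure.mono h)

theorem prob_union_le (μ : PMF Ω) (E F : Set Ω) : prob μ (E ∪ F) ≤ prob μ E + prob μ F := by
  unfold prob
  rw [← ENNReal.toReal_add (outer_ne_top μ E) (outer_ne_top μ F)]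
  exact ENNReal.toReal_mono (ENNReal.add_ne_top.2 ⟨outer_ne_top μ E, outer_ne_top μ F⟩)
    (MeasureTheory.measure_union_le E F)

theorem prob_empty (μ : PMF Ω) {E : Set Ω} (h : ∀ ω, ω ∉ E) : prob μ E = 0 := by
  have : E = ∅ := Set.eq_empty_of_forall_notMem h
  unfold prob
  rw [this, MeasureTheory.measure_empty, ENNReal.toReal_zero]

theorem summable_toReal (μ : PMF Ω) : Summable fun ω => (μ ω).toReal :=
  ENNReal.summable_toReal (by rw [μ.tsum_coe]; exact ENNReal.one_ne_top)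

theorem tsum_toReal (μ : PMF Ω) : ∑' ω, (μ ω).toReal = 1 := by
  rw [← ENNReal.tsum_toReal_eq fun ω => μ.apply_ne_top ω, μ.tsum_coe, ENNReal.toReal_one]

open Classical in
theorem prob_eq (μ : PMF Ω) (E : Set Ω) :
    prob μ E = ∑' ω, (μ ω).toReal * (if ω ∈ E then 1 else 0) := by
  unfold prob
  rw [PMF.toOuterMeasure_apply, ENNReal.tsum_toReal_eq]
  · refine tsum_congr fun ω => ?_
    by_cases h : ω ∈ E
    · rw [Set.indicator_of_mem h, if_pos h, mul_one]
    · rw [Set.indicator_of_notMem h, if_neg h, mul_zero, ENNReal.toReal_zero]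
  · intro ω
    by_cases h : ω ∈ E
    · rw [Set.indicator_of_mem h]; exact μ.apply_ne_top ω
    · rw [Set.indicator_of_notMem h]; exact ENNReal.zero_ne_top

theorem summable_mul (μ : PMF Ω) {φ : Ω → ℝ} {C : ℝ} (h0 : ∀ ω, 0 ≤ φ ω) (h1 : ∀ ω, φ ω ≤ C) :
    Summable fun ω => (μ ω).toReal * φ ω :=
  Summable.of_nonneg_of_le (fun ω => mul_nonneg ENNReal.toReal_nonneg (h0 ω))
    (fun ω => mul_le_mul_of_nonneg_left (h1 ω) ENNReal.toReal_nonneg)
    ((summable_toReal μ).mul_right C)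

open Classical in
/-- The expected number of events. -/
theorem sum_prob {ι : Type} [Fintype ι] (μ : PMF Ω) (A : ι → Set Ω) :
    ∑ x, prob μ (A x) = ∑' ω, (μ ω).toReal * ∑ x, (if ω ∈ A x then (1 : ℝ) else 0) := by
  rw [Finset.sum_congr rfl fun x _ => prob_eq μ (A x), ← Summable.tsum_finsetSum]
  · exact tsum_congr fun ω => (Finset.mul_sum _ _ _).symm
  · intro x _
    refine summable_mul μ (C := 1) (fun ω => ?_) (fun ω => ?_) <;> split_ifs <;> norm_num

open Classical in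
theorem sum_prob_le {ι : Type} [Fintype ι] (μ : PMF Ω) (A B : ι → Set Ω) (k : ℝ)
    (h : ∀ ω, ∑ x, (if ω ∈ A x then (1 : ℝ) else 0) ≤ k * ∑ x, (if ω ∈ B x then (1 : ℝ) else 0)) :
    ∑ x, prob μ (A x) ≤ k * ∑ x, prob μ (B x) := by
  have hb : ∀ (D : ι → Set Ω) (ω : Ω), 0 ≤ ∑ x, (if ω ∈ D x then (1 : ℝ) else 0) ∧
      ∑ x, (if ω ∈ D x then (1 : ℝ) else 0) ≤ Fintype.card ι := by
    intro D ω
    constructor
    · exact Finset.sum_nonneg fun x _ => by split_ifs <;> norm_num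
    · calc ∑ x, (if ω ∈ D x then (1 : ℝ) else 0) ≤ ∑ _x : ι, (1 : ℝ) :=
          Finset.sum_le_sum fun x _ => by split_ifs <;> norm_num
        _ = Fintype.card ι := by simp
  rw [sum_prob, sum_prob, ← tsum_mul_left]
  refine Summable.tsum_le_tsum (fun ω => ?_) (summable_mul μ (fun ω => (hb A ω).1)
    (fun ω => (hb A ω).2)) ((summable_mul μ (fun ω => (hb B ω).1)
    (fun ω => (hb B ω).2)).mul_left k)
  calc (μ ω).toReal * ∑ x, (if ω ∈ A x then (1 : ℝ) else 0)
      ≤ (μ ω).toReal * (k * ∑ x, (if ω ∈ B x then (1 : ℝ) else 0)) :=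
        mul_le_mul_of_nonneg_left (h ω) ENNReal.toReal_nonneg
    _ = _ := by ring

open Classical in
theorem le_sum_prob {ι : Type} [Fintype ι] (μ : PMF Ω) (A : ι → Set Ω) (k : ℝ)
    (h : ∀ ω, k ≤ ∑ x, (if ω ∈ A x then (1 : ℝ) else 0)) : k ≤ ∑ x, prob μ (A x) := by
  rw [sum_prob]
  have h1 : ∑' ω, (μ ω).toReal * k = k := by rw [tsum_mul_right, tsum_toReal, one_mul]
  have hb : ∀ ω, 0 ≤ ∑ x, (if ω ∈ A x then (1 : ℝ) else 0) ∧
      ∑ x, (if ω ∈ A x then (1 : ℝ) else 0) ≤ Fintype.card ι := by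
    intro ω
    constructor
    · exact Finset.sum_nonneg fun x _ => by split_ifs <;> norm_num
    · calc ∑ x, (if ω ∈ A x then (1 : ℝ) else 0) ≤ ∑ _x : ι, (1 : ℝ) :=
          Finset.sum_le_sum fun x _ => by split_ifs <;> norm_num
        _ = Fintype.card ι := by simp
  calc k = ∑' ω, (μ ω).toReal * k := h1.symm
    _ ≤ _ := Summable.tsum_le_tsum
      (fun ω => mul_le_mul_of_nonneg_left (h ω) ENNReal.toReal_nonneg)
      ((summable_toReal μ).mul_right k)
      (summable_mul μ (fun ω => (hb ω).1) (fun ω => (hb ω).2))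

theorem prob_map (μ : PMF Ω) (g : Ω → Ω') (E : Set Ω') :
    prob (μ.map g) E = prob μ {ω | g ω ∈ E} := by
  unfold prob
  rw [PMF.toOuterMeasure_map_apply]
  rfl

end

theorem Negligible.tendsto {ε : ℕ → ℝ} (h : Negligible ε) :
    Filter.Tendsto ε Filter.atTop (nhds 0) := by
  obtain ⟨N, hN⟩ := h 1
  have h1 : ∀ᶠ κ : ℕ in Filter.atTop, ‖ε κ‖ ≤ 1 / (κ : ℝ) := by
    filter_upwards [Filter.eventually_ge_atTop (max N 1)] with κ hκ
    have h2 := hN κ (le_trans (le_max_left _ _) hκ)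
    have h3 : (1 : ℕ) ≤ κ := le_trans (le_max_right _ _) hκ
    have h4 : (0 : ℝ) < κ := by exact_mod_cast h3
    rw [Real.norm_eq_abs, le_div_iff₀ h4]
    simpa using h2
  exact squeeze_zero_norm' h1 tendsto_one_div_atTop_nhds_zero_nat

end Pool.Agent.Helper90.RC
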