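import Mathlib
import Pool.Agent.Helper90.RC.Prob

/-!
# The attack

The parties in `V` are actively corrupted. They follow the protocol in the rounds before round
`i` and are silent from round `i` on. At the start of round `i` all parties outside of `V ∪ W`
fail-stop, at the start of round `i + 1` the parties of `W \ U`.
-/

set_option autoImplicit false

namespace Pool.Agent.Helper90.RC

open Finset

variable {n : ℕ} {X Y : Type}

/-- The messages of `p` to `q` in round `i` if nobody is corrupted. -/
def Protocol.pkt (P : Protocol n X Y) (x : Fin n → X) (ω : Fin n → P.Tape) (i : ℕ)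
    (p q : Fin n) : Option P.M × Option P.B :=
  (some ((P.send p (x p) (ω p) (P.clean x ω i p)).1 q),
    some (P.send p (x p) (ω p) (P.clean x ω i p)).2)

theorem Protocol.clean_succ (P : Protocol n X Y) (x : Fin n → X) (ω : Fin n → P.Tape) (i : ℕ)
    (q : Fin n) : P.clean x ω (i + 1) q = P.clean x ω i q ++ [fun p => P.pkt x ω i p q] := rfl

theorem Protocol.length_clean (P : Protocol n X Y) (x : Fin n → X) (ω : Fin n → P.Tape) (i : ℕ)
    (q : Fin n) : (P.clean x ω i q).length = i := by
  induction i with
  | zero => rfl
  | succ i ih => rw [P.clean_succ, List.length_append, ih]; rfl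

/-- The two executions agree in the views of the parties of `V` before round `i` and in the
messages of the parties of `W` to parties of `V` in round `i`. -/
structure Info (P : Protocol n X Y) (i : ℕ) (V W : Finset (Fin n)) (x : Fin n → X)
    (ω : Fin n → P.Tape) (x' : Fin n → X) (ω' : Fin n → P.Tape) : Prop where
  inp : ∀ p ∈ V, x p = x' p
  tape : ∀ p ∈ V, ω p = ω' p
  clean : ∀ p ∈ V, P.clean x ω i p = P.clean x' ω' i p
  pkt : ∀ q ∈ V, ∀ p ∈ W, P.pkt x ω i p q = P.pkt x' ω' i p q

theorem Info.mono {P : Protocol n X Y} {i : ℕ} {V V' W W' : Finset (Fin n)} {x x' : Fin n → X}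
    {ω ω' : Fin n → P.Tape} (h : Info P i V' W' x ω x' ω') (hV : V ⊆ V') (hW : W ⊆ W') :
    Info P i V W x ω x' ω' :=
  ⟨fun p hp => h.inp p (hV hp), fun p hp => h.tape p (hV hp), fun p hp => h.clean p (hV hp),
    fun q hq p hp => h.pkt q (hV hq) p (hW hp)⟩

/-- The parties of `V` know their own messages. -/
theorem Info.self {P : Protocol n X Y} {i : ℕ} {V W : Finset (Fin n)} {x x' : Fin n → X}
    {ω ω' : Fin n → P.Tape} (h : Info P i V W x ω x' ω') {p : Fin n} (hp : p ∈ V) (q : Fin n) :
    P.pkt x ω i p q = P.pkt x' ω' i p q := by
  unfold Protocol.pkt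
  rw [h.inp p hp, h.tape p hp, h.clean p hp]

theorem Info.succ {P : Protocol n X Y} {i : ℕ} {V : Finset (Fin n)} {x x' : Fin n → X}
    {ω ω' : Fin n → P.Tape} (h : Info P i V Vᶜ x ω x' ω') : Info P (i + 1) V ∅ x ω x' ω' := by
  refine ⟨h.inp, h.tape, fun q hq => ?_, fun q _ p hp => absurd hp (Finset.notMem_empty p)⟩
  rw [P.clean_succ, P.clean_succ, h.clean q hq]
  congr 2
  funext p
  by_cases hp : p ∈ V
  · exact h.self hp q
  · exact h.pkt q hq p (Finset.mem_compl.2 hp)

/-- The adversary of the attack. It outputs its view. -/
noncomputable def Protocol.attack (P : Protocol n X Y) (i : ℕ) (V W U : Finset (Fin n)) :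
    Adversary P where
  act := V
  pas := ∅
  Coins := Unit
  Out := View n X P.Tape P.M P.B
  coinLaw := PMF.pure ()
  crash := fun _ v => if v.round = i then (V ∪ W)ᶜ else if v.round = i + 1 then W \ U else ∅
  send := fun _ v _ p => if v.round < i then
      (match v.inp p, v.tape p, v.hist p with
        | some a, some t, some l => (fun q => some ((P.send p a t l).1 q), some (P.send p a t l).2)
        | _, _, _ => (fun _ => none, none))
    else (fun _ => none, none)
  out := fun _ v => v

section
variable (P : Protocol n X Y) (i : ℕ) (V W U : Finset (Fin n)) (x : Fin n → X)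
  (ω : Fin n → P.Tape) (c : (P.attack i V W U).Coins)

theorem attack_failed_other (j : ℕ) (hj : j ≠ i) (hj' : j ≠ i + 1) (s : State n P.M P.B) :
    (P.attack i V W U).failed x ω c j s = s.crashed := by
  unfold Adversary.failed
  have h : (P.attack i V W U).crash c ((P.attack i V W U).view x ω j s) = ∅ := by
    show (if j = i then (V ∪ W)ᶜ else if j = i + 1 then W \ U else ∅) = ∅
    rw [if_neg hj, if_neg hj']
  rw [h, Finset.empty_sdiff, Finset.union_empty]

theorem attack_failed_i (s : State n P.M P.B) :
    (P.attack i V W U).failed x ω c i s = s.crashed ∪ (V ∪ W)ᶜ := by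
  unfold Adversary.failed
  have h : (P.attack i V W U).crash c ((P.attack i V W U).view x ω i s) = (V ∪ W)ᶜ := by
    show (if i = i then (V ∪ W)ᶜ else if i = i + 1 then W \ U else ∅) = _
    rw [if_pos rfl]
  rw [h]
  congr 1
  ext p
  show p ∈ (V ∪ W)ᶜ \ (V ∪ ∅) ↔ _
  simp only [Finset.union_empty, Finset.mem_sdiff, Finset.mem_compl, Finset.mem_union, not_or]
  tauto

theorem attack_failed_i1 (hV : Disjoint V W) (s : State n P.M P.B) :
    (P.attack i V W U).failed x ω c (i + 1) s = s.crashed ∪ (W \ U) := by
  unfold Adversary.failed
  have h : (P.attack i V W U).crash c ((P.attack i V W U).view x ω (i + 1) s) = W \ U := by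
    show (if i + 1 = i then (V ∪ W)ᶜ else if i + 1 = i + 1 then W \ U else ∅) = _
    rw [if_neg (Nat.succ_ne_self i), if_pos rfl]
  rw [h]
  congr 1
  ext p
  show p ∈ (W \ U) \ (V ∪ ∅) ↔ _
  simp only [Finset.union_empty, Finset.mem_sdiff]
  constructor
  · exact fun h => h.1
  · exact fun h => ⟨h, fun hp => Finset.disjoint_left.1 hV hp h.1⟩

/-- Before round `i` the execution is the honest one. -/
theorem attack_run_before (j : ℕ) (hj : j ≤ i) :
    (P.attack i V W U).run x ω c j = ⟨∅, P.clean x ω j⟩ := by
  induction j with
  | zero => rfl
  | succ j ih =>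
    have hlt : j < i := hj
    show (P.attack i V W U).step x ω c j ((P.attack i V W U).run x ω c j) = _
    rw [ih hlt.le]
    unfold Adversary.step
    have hf : (P.attack i V W U).failed x ω c j ⟨∅, P.clean x ω j⟩ = ∅ :=
      attack_failed_other P i V W U x ω c j (by omega) (by omega) _
    rw [hf]
    congr 1
    funext q
    rw [P.clean_succ]
    congr 2
    funext p
    by_cases hp : p ∈ V
    · have hp' : p ∈ (P.attack i V W U).act := hp
      rw [if_pos hp']
      have hm : ∀ {α : Type} (g : Fin n → α),
          mask ((P.attack i V W U).act ∪ (P.attack i V W U).pas) g p = some (g p) := by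
        intro α g
        unfold mask
        rw [if_pos (Finset.mem_union_left _ hp')]
      have hact : (P.attack i V W U).active x ω c j ⟨∅, P.clean x ω j⟩ p =
          ((fun q => some ((P.send p (x p) (ω p) (P.clean x ω j p)).1 q) : Fin n → Option P.M),
            (some (P.send p (x p) (ω p) (P.clean x ω j p)).2 : Option P.B)) := by
        have h1 : (P.attack i V W U).active x ω c j ⟨∅, P.clean x ω j⟩ p =
            (if j < i then
              (match mask ((P.attack i V W U).act ∪ (P.attack i V W U).pas) x p,
                mask ((P.attack i V W U).act ∪ (P.attack i V W U).pas) ω p,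
                mask ((P.attack i V W U).act ∪ (P.attack i V W U).pas) (P.clean x ω j) p with
                | some a, some t, some l =>
                  ((fun q => some ((P.send p a t l).1 q) : Fin n → Option P.M),
                    (some (P.send p a t l).2 : Option P.B))
                | _, _, _ => ((fun _ => none : Fin n → Option P.M), (none : Option P.B)))
              else ((fun _ => none : Fin n → Option P.M), (none : Option P.B))) := rfl
        rw [h1, if_pos hlt, hm, hm, hm]
      rw [hact]
      rfl
    · have hp' : p ∉ (P.attack i V W U).act := hp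
      rw [if_neg hp']
      unfold Adversary.honest
      have hp2 : p ∉ (P.attack i V W U).act ∪
          (P.attack i V W U).failed x ω c j ⟨∅, P.clean x ω j⟩ := by
        rw [hf, Finset.union_empty]; exact hp'
      rw [if_neg hp2]
      rfl

/-- From round `i` on the active parties are silent. -/
theorem attack_active (j : ℕ) (hj : i ≤ j) (s : State n P.M P.B) (p : Fin n) :
    (P.attack i V W U).active x ω c j s p =
      ((fun _ => none : Fin n → Option P.M), (none : Option P.B)) := by
  unfold Adversary.active
  exact if_neg (show ¬ j < i by omega)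

theorem attack_step_i (hV : Disjoint V W) :
    (P.attack i V W U).run x ω c (i + 1) = ⟨(V ∪ W)ᶜ, fun q => P.clean x ω i q ++
      [fun p => if p ∈ W then P.pkt x ω i p q else (none, none)]⟩ := by
  show (P.attack i V W U).step x ω c i ((P.attack i V W U).run x ω c i) = _
  rw [attack_run_before P i V W U x ω c i le_rfl]
  unfold Adversary.step
  have hf : (P.attack i V W U).failed x ω c i ⟨∅, P.clean x ω i⟩ = (V ∪ W)ᶜ := by
    rw [attack_failed_i]
    exact Finset.empty_union _
  rw [hf]
  congr 1
  funext q
  congr 2
  funext p
  by_cases hp : p ∈ V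
  · have hp' : p ∈ (P.attack i V W U).act := hp
    rw [if_pos hp', attack_active P i V W U x ω c i le_rfl,
      if_neg (fun hw => Finset.disjoint_left.1 hV hp hw)]
  · have hp' : p ∉ (P.attack i V W U).act := hp
    rw [if_neg hp']
    unfold Adversary.honest
    rw [hf]
    by_cases hw : p ∈ W
    · rw [if_pos hw, if_neg]
      · rfl
      · intro h
        rcases Finset.mem_union.1 h with h | h
        · exact hp h
        · exact (Finset.mem_compl.1 h) (Finset.mem_union_right _ hw)
    · rw [if_neg hw, if_pos]
      refine Finset.mem_union_right _ (Finset.mem_compl.2 fun h => ?_)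
      rcases Finset.mem_union.1 h with h | h
      · exact hp h
      · exact hw h

/-- The failed parties are among those planned. -/
theorem attack_crashed_sub (hV : Disjoint V W) (j : ℕ) :
    ((P.attack i V W U).run x ω c j).crashed ⊆ (V ∪ W)ᶜ ∪ (W \ U) := by
  induction j with
  | zero => exact Finset.empty_subset _
  | succ j ih =>
    show (P.attack i V W U).failed x ω c j _ ⊆ _
    by_cases h1 : j = i
    · subst h1
      rw [attack_failed_i]
      exact Finset.union_subset ih Finset.subset_union_left
    · by_cases h2 : j = i + 1
      · subst h2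
        rw [attack_failed_i1 P i V W U x ω c hV]
        exact Finset.union_subset ih Finset.subset_union_right
      · rw [attack_failed_other P i V W U x ω c j h1 h2]
        exact ih

/-- After round `i` all parties outside of `V ∪ U` have failed. -/
theorem attack_crashed_after (hV : Disjoint V W) (j : ℕ) (hj : i + 2 ≤ j) :
    ((P.attack i V W U).run x ω c j).crashed = (V ∪ W)ᶜ ∪ (W \ U) := by
  induction j with
  | zero => omega
  | succ j ih =>
    show (P.attack i V W U).failed x ω c j _ = _
    by_cases h2 : j = i + 1
    · subst h2
      rw [attack_failed_i1 P i V W U x ω c hV, attack_step_i P i V W U x ω c hV]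
    · rw [attack_failed_other P i V W U x ω c j (by omega) h2]
      exact ih (by omega)

theorem attack_failed_after (hV : Disjoint V W) (j : ℕ) (hj : i + 1 ≤ j) :
    (P.attack i V W U).failed x ω c j ((P.attack i V W U).run x ω c j) =
      (V ∪ W)ᶜ ∪ (W \ U) :=
  attack_crashed_after P i V W U x ω c hV (j + 1) (by omega)

end

section
variable {P : Protocol n X Y} {i : ℕ} {V W U : Finset (Fin n)}

/-- What the parties of `U` receive depends only on the views of `U` before round `i` and the
messages of `W \ U` in round `i`. -/
theorem attack_hist_eq (hV : Disjoint V W) {x x' : Fin n → X}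
    {ω ω' : Fin n → P.Tape} (h : Info P i U (W \ U) x ω x' ω')
    (c : (P.attack i V W U).Coins) (j : ℕ) (hj : i + 1 ≤ j) (q : Fin n) (hq : q ∈ U) :
    ((P.attack i V W U).run x ω c j).hist q = ((P.attack i V W U).run x' ω' c j).hist q := by
  induction j generalizing q with
  | zero => omega
  | succ j ih =>
    by_cases h1 : j = i
    · subst h1
      rw [attack_step_i P j V W U x ω c hV, attack_step_i P j V W U x' ω' c hV]
      show P.clean x ω j q ++ _ = P.clean x' ω' j q ++ _
      rw [h.clean q hq]
      congr 2
      funext p
      by_cases hw : p ∈ W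
      · rw [if_pos hw, if_pos hw]
        by_cases hpU : p ∈ U
        · exact h.self hpU q
        · exact h.pkt q hq p (Finset.mem_sdiff.2 ⟨hw, hpU⟩)
      · rw [if_neg hw, if_neg hw]
    · have hij : i + 1 ≤ j := by omega
      show ((P.attack i V W U).run x ω c j).hist q ++ _ =
        ((P.attack i V W U).run x' ω' c j).hist q ++ _
      rw [ih hij q hq]
      congr 2
      funext p
      by_cases hp : p ∈ V
      · have hp' : p ∈ (P.attack i V W U).act := hp
        rw [if_pos hp', if_pos hp', attack_active P i V W U x ω c j (by omega),
          attack_active P i V W U x' ω' c j (by omega)]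
      · have hp' : p ∉ (P.attack i V W U).act := hp
        rw [if_neg hp', if_neg hp']
        unfold Adversary.honest
        rw [attack_failed_after P i V W U x ω c hV j hij,
          attack_failed_after P i V W U x' ω' c hV j hij]
        by_cases hpU : p ∈ U
        · rw [h.inp p hpU, h.tape p hpU, ih hij p hpU]
        · have hpD : p ∈ (P.attack i V W U).act ∪ ((V ∪ W)ᶜ ∪ (W \ U)) := by
            refine Finset.mem_union_right _ ?_
            by_cases hw : p ∈ W
            · exact Finset.mem_union_right _ (Finset.mem_sdiff.2 ⟨hw, hpU⟩)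
            · refine Finset.mem_union_left _ (Finset.mem_compl.2 fun h => ?_)
              rcases Finset.mem_union.1 h with h | h
              · exact hp h
              · exact hw h
          rw [if_pos hpD, if_pos hpD]

/-- The history after `j` rounds is an initial segment of the history after `j + k` rounds. -/
theorem run_hist_take (A : Adversary P) (x : Fin n → X) (ω : Fin n → P.Tape) (c : A.Coins)
    (q : Fin n) (j : ℕ) : ((A.run x ω c j).hist q).length = j ∧
      ∀ k, ((A.run x ω c (j + k)).hist q).take j = (A.run x ω c j).hist q := by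
  have hlen : ∀ j, ((A.run x ω c j).hist q).length = j := by
    intro j
    induction j with
    | zero => rfl
    | succ j ih =>
      show (((A.run x ω c j).hist q) ++ [_]).length = _
      rw [List.length_append, ih]; rfl
  refine ⟨hlen j, fun k => ?_⟩
  induction k with
  | zero => exact List.take_of_length_le (hlen j).le
  | succ k ih =>
    show (((A.run x ω c (j + k)).hist q) ++ [_]).take j = _
    rw [List.take_append_of_le_length (by rw [hlen]; omega)]
    exact ih

/-- The adversary knows the views of `V` before round `i` and the messages of `W` to `V` in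
round `i`. -/
theorem info_of_view {r : ℕ} (hi : i < r) (hV : Disjoint V W) {x x' : Fin n → X}
    {ω ω' : Fin n → P.Tape} (c : (P.attack i V W U).Coins)
    (h : (P.attack i V W U).view x ω r ((P.attack i V W U).run x ω c r) =
      (P.attack i V W U).view x' ω' r ((P.attack i V W U).run x' ω' c r)) :
    Info P i V W x ω x' ω' := by
  have h1 : mask (V ∪ ∅) x = mask (V ∪ ∅) x' := congrArg View.inp h
  have h2 : mask (V ∪ ∅) ω = mask (V ∪ ∅) ω' := congrArg View.tape h
  have h3 : mask (V ∪ ∅) ((P.attack i V W U).run x ω c r).hist =
      mask (V ∪ ∅) ((P.attack i V W U).run x' ω' c r).hist := congrArg View.hist h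
  have hm : ∀ {α : Type} {g g' : Fin n → α}, mask (V ∪ ∅) g = mask (V ∪ ∅) g' →
      ∀ p ∈ V, g p = g' p := by
    intro α g g' hg p hp
    have := congrFun hg p
    unfold mask at this
    rw [if_pos (Finset.mem_union_left _ hp), if_pos (Finset.mem_union_left _ hp)] at this
    exact Option.some.inj this
  have h4 : ∀ p ∈ V, ((P.attack i V W U).run x ω c (i + 1)).hist p =
      ((P.attack i V W U).run x' ω' c (i + 1)).hist p := by
    intro p hp
    have h5 := hm h3 p hp
    obtain ⟨k, rfl⟩ : ∃ k, r = (i + 1) + k := ⟨r - (i + 1), by omega⟩
    rw [← (run_hist_take (P.attack i V W U) x ω c p (i + 1)).2 k,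
      ← (run_hist_take (P.attack i V W U) x' ω' c p (i + 1)).2 k, h5]
  have h6 : ∀ q ∈ V, P.clean x ω i q = P.clean x' ω' i q ∧
      (fun p => if p ∈ W then P.pkt x ω i p q else (none, none)) =
        (fun p => if p ∈ W then P.pkt x' ω' i p q else (none, none)) := by
    intro q hq
    have h7 := h4 q hq
    rw [attack_step_i P i V W U x ω c hV, attack_step_i P i V W U x' ω' c hV] at h7
    have h8 := List.append_inj h7 (by rw [P.length_clean, P.length_clean])
    exact ⟨h8.1, List.cons.inj h8.2 |>.1⟩
  refine ⟨hm h1, hm h2, fun p hp => (h6 p hp).1, fun q hq p hp => ?_⟩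
  have := congrFun (h6 q hq).2 p
  simpa [hp] using this

end

end Pool.Agent.Helper90.RC
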