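import Mathlib
import Pool.Agent.Helper90.RC.Prob

/-!
# The ideal execution

The function `sumZero` tells whether the sum of the inputs in `ZMod 3` is zero. In the ideal
execution the honest parties get a wrong output (or abort) with at most three times the
probability that a guess of the adversary for the value of the function is wrong.
-/

set_option autoImplicit false

namespace Pool.Agent.Helper90.RC

open Finset

theorem sum_update_add {n : ℕ} (g : Fin n → ZMod 3) (h : Fin n) (a : ZMod 3) :
    ∑ p, Function.update g h (g h + a) p = (∑ p, g p) + a := by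
  rw [Finset.sum_update_of_mem (Finset.mem_univ h),
    ← Finset.add_sum_erase Finset.univ g (Finset.mem_univ h), Finset.sdiff_singleton_eq_erase]
  ring

theorem shift_unique : ∀ (s s' : ZMod 3) (ψ : Bool → Bool),
    (∀ a : ZMod 3, ψ (decide (s' + a = 0)) = decide (s + a = 0)) → s' = s := by
  decide

theorem shift_const : ∀ (s : ZMod 3) (b : Bool), ¬ ∀ a : ZMod 3, b = decide (s + a = 0) := by
  decide

section
variable {n : ℕ} {Out : Type}

theorem mask_update {α : Type} (V : Finset (Fin n)) (x : Fin n → α) (h : Fin n) (hh : h ∉ V)
    (b : α) : mask V (Function.update x h b) = mask V x := by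
  funext p
  unfold mask
  by_cases hp : p ∈ V
  · rw [if_pos hp, if_pos hp, Function.update_of_ne]
    rintro rfl
    exact hh hp
  · rw [if_neg hp, if_neg hp]

/-- Shift of the input of one party that depends only on the inputs of other parties. -/
def shiftEquiv (V : Finset (Fin n)) (h : (Fin n → Option (ZMod 3)) → Fin n)
    (hh : ∀ x : Fin n → ZMod 3, h (mask V x) ∉ V) (a : ZMod 3) :
    (Fin n → ZMod 3) ≃ (Fin n → ZMod 3) where
  toFun x := Function.update x (h (mask V x)) (x (h (mask V x)) + a)
  invFun x := Function.update x (h (mask V x)) (x (h (mask V x)) + -a)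
  left_inv x := by
    simp only [mask_update V x _ (hh x), Function.update_self, Function.update_idem]
    rw [add_neg_cancel_right, Function.update_eq_self]
  right_inv x := by
    simp only [mask_update V x _ (hh x), Function.update_self, Function.update_idem]
    rw [neg_add_cancel_right, Function.update_eq_self]

theorem sum_shift (V : Finset (Fin n)) (h : (Fin n → Option (ZMod 3)) → Fin n)
    (hh : ∀ x : Fin n → ZMod 3, h (mask V x) ∉ V) (φ : (Fin n → ZMod 3) → ℝ) :
    ∑ x, ∑ a : ZMod 3, φ (Function.update x (h (mask V x)) (x (h (mask V x)) + a)) =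
      3 * ∑ x, φ x := by
  rw [Finset.sum_comm]
  have h1 : ∀ a : ZMod 3, ∑ x, φ (Function.update x (h (mask V x)) (x (h (mask V x)) + a)) =
      ∑ x, φ x := fun a => Equiv.sum_comp (shiftEquiv V h hh a) φ
  rw [Finset.sum_congr rfl fun a _ => h1 a, Finset.sum_const, Finset.card_univ, ZMod.card,
    nsmul_eq_mul]
  norm_num

open Classical in
theorem ideal_ineq (S : Simulator n (ZMod 3) Bool Out) (act pas : Finset (Fin n))
    (d : Fin n → ZMod 3) (hS : S.Legal act pas (sumZero n) d) (guess : Out → Bool)
    (c : S.Coins) :
    ∑ x, (if S.result act pas (sumZero n) d x c ≠ some (sumZero n x) then (1 : ℝ) else 0) ≤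
      3 * ∑ x, (if guess (S.out c (mask (act ∪ pas) x) (S.result act pas (sumZero n) d x c)) ≠
        sumZero n x then (1 : ℝ) else 0) := by
  set V := act ∪ pas with hV
  -- a party which is not corrupted and does not fail early
  have hex : ∀ μ : Fin n → Option (ZMod 3), ∃ p : Fin n,
      (∃ x : Fin n → ZMod 3, mask V x = μ) → p ∉ V ∧ p ∉ S.crash c μ := by
    intro μ
    by_cases hμ : ∃ x : Fin n → ZMod 3, mask V x = μ
    · obtain ⟨x, hx⟩ := hμ
      have h1 := hS x c
      have h2 : (act ∪ pas ∪ S.early act pas x c).card < n := by
        have h3 : (act ∪ pas ∪ S.early act pas x c).card ≤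
            act.card + pas.card + (S.early act pas x c).card :=
          (Finset.card_union_le _ _).trans (Nat.add_le_add_right (Finset.card_union_le _ _) _)
        have h4 : (S.early act pas x c).card ≤ (S.failed act pas (sumZero n) d x c).card :=
          Finset.card_le_card Finset.subset_union_left
        omega
      obtain ⟨p, hp⟩ : ∃ p, p ∉ act ∪ pas ∪ S.early act pas x c := by
        by_contra hcon
        push Not at hcon
        have h5 : (Finset.univ : Finset (Fin n)) ⊆ act ∪ pas ∪ S.early act pas x c :=
          fun p _ => hcon p
        have h6 := Finset.card_le_card h5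
        rw [Finset.card_univ, Fintype.card_fin] at h6
        omega
      refine ⟨p, fun _ => ?_⟩
      rw [Finset.mem_union, not_or] at hp
      refine ⟨hp.1, fun h => hp.2 ?_⟩
      unfold Simulator.early
      rw [← hV, hx]
      exact Finset.mem_sdiff.2 ⟨h, hp.1⟩
    · by_cases hn : Nonempty (Fin n)
      · obtain ⟨p⟩ := hn
        exact ⟨p, fun h => absurd h hμ⟩
      · exfalso
        exact hμ ⟨fun _ => 0, funext fun p => (hn ⟨p⟩).elim⟩
  choose h hh using hex
  have hh1 : ∀ x : Fin n → ZMod 3, h (mask V x) ∉ V := fun x => (hh _ ⟨x, rfl⟩).1
  have hh2 : ∀ x : Fin n → ZMod 3, h (mask V x) ∉ S.crash c (mask V x) :=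
    fun x => (hh _ ⟨x, rfl⟩).2
  set T : ZMod 3 → (Fin n → ZMod 3) → (Fin n → ZMod 3) :=
    fun a x => Function.update x (h (mask V x)) (x (h (mask V x)) + a) with hT
  have hmask : ∀ a x, mask V (T a x) = mask V x := fun a x => mask_update V x _ (hh1 x) _
  have hearly : ∀ a x, S.early act pas (T a x) c = S.early act pas x c := by
    intro a x
    unfold Simulator.early
    rw [← hV, hmask]
  have hinp : ∀ a x, S.inputs act pas d (T a x) c =
      Function.update (S.inputs act pas d x c) (h (mask V x))
        (S.inputs act pas d x c (h (mask V x)) + a) := by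
    intro a x
    funext p
    have hp1 : h (mask V x) ∉ act := fun h' => hh1 x (Finset.mem_union_left _ h')
    have hp2 : h (mask V x) ∉ S.early act pas x c := by
      unfold Simulator.early
      intro h'
      exact hh2 x (Finset.mem_sdiff.1 h').1
    by_cases hp : p = h (mask V x)
    · subst hp
      rw [Function.update_self]
      unfold Simulator.inputs
      rw [if_neg hp1, hearly, if_neg hp2, if_neg hp1, if_neg hp2]
      exact Function.update_self _ _ _
    · rw [Function.update_of_ne hp]
      unfold Simulator.inputs
      rw [hearly, ← hV, hmask]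
      have : T a x p = x p := Function.update_of_ne hp _ _
      rw [this]
  have hres : ∀ a x, S.result act pas (sumZero n) d (T a x) c =
      if S.abort c (mask V x) then none
      else some (decide ((∑ p, S.inputs act pas d x c p) + a = 0)) := by
    intro a x
    unfold Simulator.result
    rw [← hV, hmask, hinp]
    unfold sumZero
    rw [sum_update_add]
  have hf : ∀ a x, sumZero n (T a x) = decide ((∑ p, x p) + a = 0) := by
    intro a x
    unfold sumZero
    rw [sum_update_add]
  set bad : (Fin n → ZMod 3) → ℝ := fun x =>
    if S.result act pas (sumZero n) d x c ≠ some (sumZero n x) then (1 : ℝ) else 0 with hbad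
  set wrong : (Fin n → ZMod 3) → ℝ := fun x =>
    if guess (S.out c (mask V x) (S.result act pas (sumZero n) d x c)) ≠ sumZero n x
      then (1 : ℝ) else 0 with hwrong
  have hb1 : ∀ x, bad x ≤ 1 := by
    intro x; simp only [hbad]; split_ifs <;> norm_num
  have hw0 : ∀ x, 0 ≤ wrong x := by
    intro x; simp only [hwrong]; split_ifs <;> norm_num
  have key : ∀ x, ∑ a : ZMod 3, bad (T a x) ≤ 3 * ∑ a : ZMod 3, wrong (T a x) := by
    intro x
    by_cases hall : ∀ a : ZMod 3,
        guess (S.out c (mask V (T a x)) (S.result act pas (sumZero n) d (T a x) c)) =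
          sumZero n (T a x)
    · have hz : ∀ a : ZMod 3, bad (T a x) = 0 := by
        intro a
        by_cases hab : S.abort c (mask V x) = true
        · exfalso
          apply shift_const (∑ p, x p) (guess (S.out c (mask V x) none))
          intro b
          have := hall b
          rw [hmask, hres, if_pos hab, hf] at this
          exact this
        · have hs := shift_unique (∑ p, x p) (∑ p, S.inputs act pas d x c p)
            (fun y => guess (S.out c (mask V x) (some y))) (by
              intro b
              have := hall b
              rw [hmask, hres, if_neg hab, hf] at this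
              exact this)
          simp only [hbad]
          rw [if_neg]
          rw [not_not, hres, if_neg hab, hf, hs]
      rw [Finset.sum_congr rfl fun a _ => hz a, Finset.sum_const_zero]
      exact mul_nonneg (by norm_num) (Finset.sum_nonneg fun a _ => hw0 _)
    · push Not at hall
      obtain ⟨a, ha⟩ := hall
      have h1 : wrong (T a x) = 1 := by
        simp only [hwrong]
        rw [if_pos ha]
      have h2 : (1 : ℝ) ≤ ∑ a : ZMod 3, wrong (T a x) := by
        rw [← h1]
        exact Finset.single_le_sum (f := fun a => wrong (T a x)) (fun b _ => hw0 _)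
          (Finset.mem_univ a)
      have h3 : ∑ a : ZMod 3, bad (T a x) ≤ 3 := by
        calc ∑ a : ZMod 3, bad (T a x) ≤ ∑ _a : ZMod 3, (1 : ℝ) :=
              Finset.sum_le_sum fun b _ => hb1 _
          _ = 3 := by
              rw [Finset.sum_const, Finset.card_univ, ZMod.card, nsmul_eq_mul]; norm_num
      linarith
  have h1 := Finset.sum_le_sum (s := Finset.univ) fun x (_ : x ∈ Finset.univ) => key x
  rw [← Finset.mul_sum] at h1
  have h2 := sum_shift V h hh1 bad
  have h3 := sum_shift V h hh1 wrong
  simp only [hT] at h1
  rw [h2, h3] at h1
  linarith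

end

end Pool.Agent.Helper90.RC
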