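import Mathlib
import Pool.Agent.Helper90.RC.Attack
import Pool.Agent.Helper90.RC.Ideal

/-!
# One application of the attack

`Det P i V W`: the views of the parties of `V` before round `i` and the messages of the parties
of `W` to them in round `i` of the honest execution determine the value of the function, up to an
error that tends to zero.
-/

set_option autoImplicit false

namespace Pool.Agent.Helper90.RC

open Finset

variable {n : ℕ}

/-- The probability that `g` is not the value of the function, summed over all inputs. -/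
noncomputable def perr (P : Protocol n (ZMod 3) Bool)
    (g : (Fin n → ZMod 3) → (Fin n → P.Tape) → Bool) : ℝ :=
  ∑ x, prob P.law {ω | g x ω ≠ sumZero n x}

theorem perr_nonneg (P : Protocol n (ZMod 3) Bool)
    (g : (Fin n → ZMod 3) → (Fin n → P.Tape) → Bool) : 0 ≤ perr P g :=
  Finset.sum_nonneg fun _ _ => prob_nonneg _ _

/-- The views of `V` before round `i` and the messages of `W` to `V` in round `i` determine the
value of the function, up to a small error. -/
def Det (P : ℕ → Protocol n (ZMod 3) Bool) (i : ℕ) (V W : Finset (Fin n)) : Prop :=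
  ∃ g : (κ : ℕ) → (Fin n → ZMod 3) → (Fin n → (P κ).Tape) → Bool,
    (∀ κ x ω x' ω', Info (P κ) i V W x ω x' ω' → g κ x ω = g κ x' ω') ∧
    Filter.Tendsto (fun κ => perr (P κ) (g κ)) Filter.atTop (nhds 0)

theorem Det.mono {P : ℕ → Protocol n (ZMod 3) Bool} {i : ℕ} {V V' W W' : Finset (Fin n)}
    (h : Det P i V W) (hV : V ⊆ V') (hW : W ⊆ W') : Det P i V' W' := by
  obtain ⟨g, hg, ht⟩ := h
  exact ⟨g, fun κ x ω x' ω' hI => hg κ x ω x' ω' (hI.mono hV hW), ht⟩

theorem Det.succ {P : ℕ → Protocol n (ZMod 3) Bool} {i : ℕ} {V : Finset (Fin n)}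
    (h : Det P (i + 1) V ∅) : Det P i V Vᶜ := by
  obtain ⟨g, hg, ht⟩ := h
  exact ⟨g, fun κ x ω x' ω' hI => hg κ x ω x' ω' hI.succ, ht⟩

section
variable (P : Protocol n (ZMod 3) Bool) (i : ℕ) (V W U : Finset (Fin n))

theorem attack_legal (hVW : Disjoint V W) (hU : U ⊆ W) (hc : U.card = V.card + 1) (r : ℕ) :
    (P.attack i V W U).Legal r := by
  refine ⟨Finset.disjoint_empty_right V, fun x ω c => ?_⟩
  have h1 := Finset.card_le_card (attack_crashed_sub P i V W U x ω c hVW r)
  have h2 : ((V ∪ W)ᶜ ∪ (W \ U)).card ≤ (n - (V.card + W.card)) + (W.card - U.card) := by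
    refine (Finset.card_union_le _ _).trans (Nat.add_le_add ?_ ?_)
    · rw [Finset.card_compl, Fintype.card_fin, Finset.card_union_of_disjoint hVW]
    · rw [Finset.card_sdiff_of_subset hU]
  have h3 : V.card + W.card ≤ n := by
    rw [← Finset.card_union_of_disjoint hVW]
    simpa using Finset.card_le_univ (V ∪ W)
  have h4 := Finset.card_le_card hU
  have h5 : ((P.attack i V W U).act).card = V.card := rfl
  have h6 : ((P.attack i V W U).pas).card = 0 := rfl
  rw [h5, h6]
  omega

/-- The new guess: the output of the party `u` in the attacked execution. -/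
noncomputable def newGuess (r : ℕ) (u : Fin n) (x : Fin n → ZMod 3) (ω : Fin n → P.Tape) : Bool :=
  (P.out u (x u) (ω u) (((P.attack i V W U).run x ω () r).hist u)).getD false

theorem attack_realLaw (r : ℕ) (x : Fin n → ZMod 3) : (P.attack i V W U).realLaw r x =
    P.law.map fun ω => (P.attack i V W U).real r x ω () := by
  unfold Adversary.realLaw
  have h : ∀ ω, (P.attack i V W U).coinLaw.map (fun c => (P.attack i V W U).real r x ω c) =
      PMF.pure ((P.attack i V W U).real r x ω ()) := fun ω => PMF.pure_map _ _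
  simp only [h]
  rfl

/-- The error of the new guess. -/
theorem newGuess_err {r : ℕ} (hi : i < r) (hVW : Disjoint V W) (hU : U ⊆ W)
    (g : (Fin n → ZMod 3) → (Fin n → P.Tape) → Bool)
    (hg : ∀ x ω x' ω', Info P i V W x ω x' ω' → g x ω = g x' ω')
    (u : Fin n) (hu : u ∈ U) (d : Fin n → ZMod 3)
    (S : Simulator n (ZMod 3) Bool (P.attack i V W U).Out)
    (hS : S.Legal (P.attack i V W U).act (P.attack i V W U).pas (sumZero n) d) (ε : ℝ)
    (hclose : ∀ (x : Fin n → ZMod 3)
      (E : Set ((P.attack i V W U).Out × (Fin n → Option (Option Bool)))),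
        |prob ((P.attack i V W U).realLaw r x) E -
          prob (S.idealLaw (P.attack i V W U).act (P.attack i V W U).pas (sumZero n) d x) E| ≤
            ε) :
    perr P (newGuess P i V W U r u) ≤
      3 * perr P g + 5 * (Fintype.card (Fin n → ZMod 3) * ε) := by
  classical
  have hclose' : ∀ (x : Fin n → ZMod 3)
      (E : Set ((P.attack i V W U).Out × (Fin n → Option (Option Bool)))),
        |prob P.law {ω | (P.attack i V W U).real r x ω () ∈ E} -
          prob S.coinLaw {c | S.ideal V ∅ (sumZero n) d x c ∈ E}| ≤ ε := by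
    intro x E
    have h := hclose x E
    rw [attack_realLaw, prob_map] at h
    unfold Simulator.idealLaw at h
    rw [prob_map] at h
    exact h
  -- the guess as a function of the view of the adversary
  obtain ⟨guess, hguess⟩ : ∃ guess : (P.attack i V W U).Out → Bool,
      ∀ x ω, guess (((P.attack i V W U).real r x ω ()).1) = g x ω := by
    refine ⟨fun v => if h : ∃ z : (Fin n → ZMod 3) × (Fin n → P.Tape),
      ((P.attack i V W U).real r z.1 z.2 ()).1 = v then g h.choose.1 h.choose.2 else false, ?_⟩
    intro x ω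
    have hex : ∃ z : (Fin n → ZMod 3) × (Fin n → P.Tape),
        ((P.attack i V W U).real r z.1 z.2 ()).1 = ((P.attack i V W U).real r x ω ()).1 :=
      ⟨(x, ω), rfl⟩
    show (if h : _ then _ else _) = _
    rw [dif_pos hex]
    exact hg _ _ _ _ (info_of_view (P := P) (U := U) hi hVW () hex.choose_spec)
  set f := sumZero n with hf
  set N : ℝ := (Fintype.card (Fin n → ZMod 3) : ℝ) with hN
  -- the events
  set R1 : (Fin n → ZMod 3) → ℝ := fun x => prob P.law {ω | g x ω ≠ f x} with hR1
  set R2 : (Fin n → ZMod 3) → ℝ := fun x => prob P.law {ω |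
    P.out u (x u) (ω u) (((P.attack i V W U).run x ω () r).hist u) ≠ some (f x)} with hR2
  set I1 : (Fin n → ZMod 3) → ℝ := fun x => prob S.coinLaw {c |
    guess (S.out c (mask (V ∪ ∅) x) (S.result V ∅ f d x c)) ≠ f x} with hI1
  set J : (Fin n → ZMod 3) → ℝ := fun x => prob S.coinLaw {c |
    S.result V ∅ f d x c ≠ some (f x)} with hJ
  have huV : u ∉ V := fun h => Finset.disjoint_left.1 hVW h (hU hu)
  have hreal2 : ∀ x ω, ((P.attack i V W U).real r x ω ()).2 u =
      some (P.out u (x u) (ω u) (((P.attack i V W U).run x ω () r).hist u)) := by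
    intro x ω
    show (if u ∈ (P.attack i V W U).act ∪ ((P.attack i V W U).run x ω () r).crashed then none
      else some (P.out u (x u) (ω u) (((P.attack i V W U).run x ω () r).hist u))) = _
    rw [if_neg]
    intro h
    rcases Finset.mem_union.1 h with h | h
    · exact huV h
    · rcases Finset.mem_union.1 (attack_crashed_sub P i V W U x ω () hVW r h) with h | h
      · exact (Finset.mem_compl.1 h) (Finset.mem_union_right _ (hU hu))
      · exact (Finset.mem_sdiff.1 h).2 hu
  have e1 : ∀ x, I1 x ≤ R1 x + ε := by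
    intro x
    have h1 := hclose' x {o | guess o.1 ≠ f x}
    have h2 : prob P.law {ω | (P.attack i V W U).real r x ω () ∈
        ({o | guess o.1 ≠ f x} : Set ((P.attack i V W U).Out × (Fin n → Option (Option Bool))))} =
        R1 x := by
      have h3 : {ω | (P.attack i V W U).real r x ω () ∈
          ({o | guess o.1 ≠ f x} : Set ((P.attack i V W U).Out ×
            (Fin n → Option (Option Bool))))} = {ω | g x ω ≠ f x} := by
        ext ω
        show guess ((P.attack i V W U).real r x ω ()).1 ≠ f x ↔ _
        rw [hguess]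
        rfl
      rw [h3]
    rw [h2] at h1
    have h4 : prob S.coinLaw {c | S.ideal V ∅ f d x c ∈
        ({o | guess o.1 ≠ f x} : Set ((P.attack i V W U).Out × (Fin n → Option (Option Bool))))} =
        I1 x := rfl
    rw [h4] at h1
    have := (abs_le.1 h1).1
    linarith
  have e0 : ∀ x, prob S.coinLaw {c | (S.ideal V ∅ f d x c).2 u = none} ≤ ε := by
    intro x
    have h1 := hclose' x {o | o.2 u = none}
    have h2 : prob P.law {ω | (P.attack i V W U).real r x ω () ∈
        ({o | o.2 u = none} : Set ((P.attack i V W U).Out × (Fin n → Option (Option Bool))))} =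
        0 := by
      apply prob_empty
      intro ω h
      have h3 : ((P.attack i V W U).real r x ω ()).2 u = none := h
      rw [hreal2] at h3
      exact absurd h3 (Option.some_ne_none _)
    rw [h2] at h1
    have h4 := (abs_le.1 h1).1
    have h5 : prob S.coinLaw {c | S.ideal V ∅ f d x c ∈
        ({o | o.2 u = none} : Set ((P.attack i V W U).Out × (Fin n → Option (Option Bool))))} =
        prob S.coinLaw {c | (S.ideal V ∅ f d x c).2 u = none} := rfl
    rw [h5] at h4
    linarith
  have e2 : ∀ x, R2 x ≤ J x + 2 * ε := by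
    intro x
    have h1 := hclose' x {o | o.2 u ≠ some (some (f x))}
    have h2 : prob P.law {ω | (P.attack i V W U).real r x ω () ∈
        ({o | o.2 u ≠ some (some (f x))} :
          Set ((P.attack i V W U).Out × (Fin n → Option (Option Bool))))} = R2 x := by
      have h3 : {ω | (P.attack i V W U).real r x ω () ∈
          ({o | o.2 u ≠ some (some (f x))} :
            Set ((P.attack i V W U).Out × (Fin n → Option (Option Bool))))} =
          {ω | P.out u (x u) (ω u) (((P.attack i V W U).run x ω () r).hist u) ≠
            some (f x)} := by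
        ext ω
        show ((P.attack i V W U).real r x ω ()).2 u ≠ some (some (f x)) ↔ _
        rw [hreal2]
        exact ⟨fun h h' => h (congrArg some h'), fun h h' => h (Option.some.inj h')⟩
      rw [h3]
    rw [h2] at h1
    have h5 : prob S.coinLaw {c | S.ideal V ∅ f d x c ∈
        ({o | o.2 u ≠ some (some (f x))} :
          Set ((P.attack i V W U).Out × (Fin n → Option (Option Bool))))} ≤
        prob S.coinLaw {c | (S.ideal V ∅ f d x c).2 u = none} + J x := by
      refine (prob_mono _ ?_).trans (prob_union_le _ _ _)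
      intro c hc
      have hc' : (S.ideal V ∅ f d x c).2 u ≠ some (some (f x)) := hc
      by_cases hn : (S.ideal V ∅ f d x c).2 u = none
      · exact Or.inl hn
      · right
        have h6 : (S.ideal V ∅ f d x c).2 u = some (S.result V ∅ f d x c) := by
          unfold Simulator.ideal at hn ⊢
          by_cases h7 : u ∈ V ∪ S.failed V ∅ f d x c
          · exact absurd (if_pos h7) hn
          · exact if_neg h7
        rw [h6] at hc'
        show S.result V ∅ f d x c ≠ some (f x)
        intro h8
        exact hc' (congrArg some h8)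
    have h9 := (abs_le.1 h1).2
    have h10 := e0 x
    linarith
  have e3 : ∑ x, J x ≤ 3 * ∑ x, I1 x := by
    have h8 : ∀ (p q : Prop) (i1 : Decidable p) (i2 : Decidable q), (p ↔ q) →
        @ite ℝ p i1 1 0 = @ite ℝ q i2 1 0 := by
      intro p q i1 i2 hpq
      by_cases hp : p
      · rw [if_pos hp, if_pos (hpq.1 hp)]
      · rw [if_neg hp, if_neg (fun hq => hp (hpq.2 hq))]
    refine sum_prob_le S.coinLaw _ _ 3 fun c => ?_
    exact le_trans (le_of_eq (Finset.sum_congr rfl fun x _ => h8 _ _ _ _ Iff.rfl))
      (le_trans (ideal_ineq S V ∅ d hS guess c)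
        (le_of_eq (congrArg (fun t => 3 * t) (Finset.sum_congr rfl fun x _ =>
          h8 _ _ _ _ Iff.rfl))))
  have e4 : ∑ x, R2 x ≤ 3 * ∑ x, R1 x + 5 * (N * ε) := by
    have h1 : ∑ x, R2 x ≤ ∑ x, (J x + 2 * ε) := Finset.sum_le_sum fun x _ => e2 x
    have h2 : ∑ x, I1 x ≤ ∑ x, (R1 x + ε) := Finset.sum_le_sum fun x _ => e1 x
    rw [Finset.sum_add_distrib, Finset.sum_const, Finset.card_univ, nsmul_eq_mul, ← hN] at h1 h2
    linarith
  have e5 : perr P (newGuess P i V W U r u) ≤ ∑ x, R2 x := by
    refine Finset.sum_le_sum fun x _ => prob_mono _ fun ω h => ?_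
    have h' : newGuess P i V W U r u x ω ≠ f x := h
    show P.out u (x u) (ω u) (((P.attack i V W U).run x ω () r).hist u) ≠ some (f x)
    intro h9
    apply h'
    unfold newGuess
    rw [h9]
    rfl
  exact e5.trans e4

end

/-- One application of the attack. -/
theorem Det.attack {P : ℕ → Protocol n (ZMod 3) Bool} {r : ℕ} {d : Fin n → ZMod 3}
    {rushing : Bool} (hs : FairSecure rushing (sumZero n) d r P) {i : ℕ} (hi : i < r)
    {V W U : Finset (Fin n)} (hVW : Disjoint V W) (hU : U ⊆ W) (hc : U.card = V.card + 1)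
    (h : Det P i V W) : Det P i U (W \ U) := by
  obtain ⟨g, hg, hgt⟩ := h
  obtain ⟨S, hSL, ε, hε, hclose⟩ := hs.2 (fun κ => (P κ).attack i V W U)
    (fun κ => attack_legal (P κ) i V W U hVW hU hc r) (fun _ κ c v m m' => rfl)
  obtain ⟨u, hu⟩ : U.Nonempty := Finset.card_pos.1 (by omega)
  refine ⟨fun κ => newGuess (P κ) i V W U r u, ?_, ?_⟩
  · intro κ x ω x' ω' hI
    show newGuess (P κ) i V W U r u x ω = newGuess (P κ) i V W U r u x' ω'
    unfold newGuess
    rw [hI.inp u hu, hI.tape u hu, attack_hist_eq hVW hI () r hi u hu]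
  · have h1 : ∀ κ, perr (P κ) (newGuess (P κ) i V W U r u) ≤
        3 * perr (P κ) (g κ) + 5 * (Fintype.card (Fin n → ZMod 3) * ε κ) := fun κ =>
      newGuess_err (P κ) i V W U hi hVW hU (g κ) (hg κ) u hu d (S κ) (hSL κ) (ε κ) (hclose κ)
    have h2 : Filter.Tendsto (fun κ => 3 * perr (P κ) (g κ) +
        5 * (Fintype.card (Fin n → ZMod 3) * ε κ)) Filter.atTop (nhds 0) := by
      have h3 := (hgt.const_mul 3).add
        ((hε.tendsto.const_mul (Fintype.card (Fin n → ZMod 3) : ℝ)).const_mul 5)
      simpa using h3
    exact squeeze_zero (fun κ => perr_nonneg _ _) h1 h2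

end Pool.Agent.Helper90.RC
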