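import Mathlib
import Pool.Agent.Helper90.RC.Step

/-!
# The lower bound for the number of rounds
-/

set_option autoImplicit false

namespace Pool.Agent.Helper90.RC

open Finset

variable {n : ℕ} {P : ℕ → Protocol n (ZMod 3) Bool} {r : ℕ} {d : Fin n → ZMod 3}
  {rushing : Bool}

/-- At the end every party knows the value of the function. -/
theorem Det.start (hs : FairSecure rushing (sumZero n) d r P) (p : Fin n) : Det P r {p} ∅ := by
  obtain ⟨ε, hε, hcor⟩ := hs.1
  refine ⟨fun κ x ω => ((P κ).out p (x p) (ω p) ((P κ).clean x ω r p)).getD false, ?_, ?_⟩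
  · intro κ x ω x' ω' hI
    have hp : p ∈ ({p} : Finset (Fin n)) := Finset.mem_singleton_self p
    show ((P κ).out p (x p) (ω p) ((P κ).clean x ω r p)).getD false =
      ((P κ).out p (x' p) (ω' p) ((P κ).clean x' ω' r p)).getD false
    rw [hI.inp p hp, hI.tape p hp, hI.clean p hp]
  · have h0 : Filter.Tendsto (fun κ => (Fintype.card (Fin n → ZMod 3) : ℝ) * ε κ)
        Filter.atTop (nhds 0) := by
      simpa using hε.tendsto.const_mul (Fintype.card (Fin n → ZMod 3) : ℝ)
    refine squeeze_zero (fun κ => perr_nonneg _ _) (fun κ => ?_) h0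
    calc perr (P κ) (fun x ω => ((P κ).out p (x p) (ω p) ((P κ).clean x ω r p)).getD false)
        ≤ ∑ _x : Fin n → ZMod 3, ε κ := by
          refine Finset.sum_le_sum fun x _ => le_trans (prob_mono _ fun ω h => ?_) (hcor κ x)
          have h1 : ((P κ).out p (x p) (ω p) ((P κ).clean x ω r p)).getD false ≠
            sumZero n x := h
          refine ⟨p, fun h' => h1 ?_⟩
          rw [h']
          rfl
      _ = Fintype.card (Fin n → ZMod 3) * ε κ := by
          rw [Finset.sum_const, Finset.card_univ, nsmul_eq_mul]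

/-- Before the first round nothing is known about the input of a party outside of `U ∪ W`. -/
theorem not_det_zero {U W : Finset (Fin n)} (hUW : ((U ∪ W)ᶜ).Nonempty) : ¬ Det P 0 U W := by
  classical
  rintro ⟨g, hg, ht⟩
  obtain ⟨v, hv⟩ := hUW
  rw [Finset.mem_compl, Finset.mem_union, not_or] at hv
  have hinv : ∀ κ x ω (a : ZMod 3), g κ (Function.update x v (x v + a)) ω = g κ x ω := by
    intro κ x ω a
    have hne : ∀ S : Finset (Fin n), v ∉ S → ∀ p ∈ S,
        Function.update x v (x v + a) p = x p := by
      intro S hS p hp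
      have hpv : p ≠ v := by
        rintro rfl
        exact hS hp
      exact Function.update_of_ne hpv _ _
    refine hg κ _ _ _ _ ⟨hne U hv.1, fun _ _ => rfl, fun _ _ => rfl, fun q _ p hp => ?_⟩
    unfold Protocol.pkt
    rw [hne W hv.2 p hp]
    rfl
  have hlow : ∀ κ, 1 / 3 ≤ perr (P κ) (g κ) := by
    intro κ
    refine le_sum_prob _ _ _ fun ω => ?_
    have h3 := sum_shift (∅ : Finset (Fin n)) (fun _ => v) (fun _ => Finset.notMem_empty v)
      (fun x => if g κ x ω ≠ sumZero n x then (1 : ℝ) else 0)
    have h4 : ∀ x : Fin n → ZMod 3, (1 : ℝ) ≤ ∑ a : ZMod 3,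
        (if g κ (Function.update x v (x v + a)) ω ≠
          sumZero n (Function.update x v (x v + a)) then (1 : ℝ) else 0) := by
      intro x
      have h5 : ¬ ∀ a : ZMod 3, g κ x ω = decide ((∑ p, x p) + a = 0) :=
        shift_const _ _
      push Not at h5
      obtain ⟨a, ha⟩ := h5
      have h6 : (if g κ (Function.update x v (x v + a)) ω ≠
          sumZero n (Function.update x v (x v + a)) then (1 : ℝ) else 0) = 1 := by
        rw [if_pos]
        rw [hinv]
        unfold sumZero
        rw [sum_update_add]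
        exact ha
      refine h6.symm.le.trans ?_
      exact Finset.single_le_sum (f := fun a : ZMod 3 =>
        if g κ (Function.update x v (x v + a)) ω ≠
          sumZero n (Function.update x v (x v + a)) then (1 : ℝ) else 0)
        (fun b _ => by split_ifs <;> norm_num) (Finset.mem_univ a)
    have h7 : (1 : ℝ) ≤ ∑ x : Fin n → ZMod 3, ∑ a : ZMod 3,
        (if g κ (Function.update x v (x v + a)) ω ≠
          sumZero n (Function.update x v (x v + a)) then (1 : ℝ) else 0) := by
      calc (1 : ℝ) ≤ Fintype.card (Fin n → ZMod 3) := by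
            exact_mod_cast Fintype.card_pos
        _ = ∑ _x : Fin n → ZMod 3, (1 : ℝ) := by
            rw [Finset.sum_const, Finset.card_univ, nsmul_eq_mul, mul_one]
        _ ≤ _ := Finset.sum_le_sum fun x _ => h4 x
    rw [h3] at h7
    refine le_trans (b := ∑ x, if g κ x ω ≠ sumZero n x then (1 : ℝ) else 0) (by linarith)
      (le_of_eq (Finset.sum_congr rfl fun x _ => ?_))
    by_cases h : g κ x ω ≠ sumZero n x
    · rw [if_pos h, if_pos (show ω ∈ {ω | g κ x ω ≠ sumZero n x} from h)]
    · rw [if_neg h, if_neg (show ω ∉ {ω | g κ x ω ≠ sumZero n x} from h)]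
  have := ge_of_tendsto' ht hlow
  norm_num at this

/-- Repeated attacks in one round. -/
theorem Det.chain (hs : FairSecure rushing (sumZero n) d r P) {i : ℕ} (hi : i < r) (h : ℕ) :
    ∀ V W : Finset (Fin n), W.card = h → Disjoint V W → Det P i V W →
      4 * (V.card ^ 2 + V.card + 2 * h) + 2 * n < n ^ 2 →
      ∃ V' : Finset (Fin n), V'.Nonempty ∧ Det P i V' ∅ ∧
        V'.card ^ 2 ≤ V.card ^ 2 + V.card + 2 * h + V'.card := by
  induction h using Nat.strong_induction_on with
  | _ h ih =>
    intro V W hW hVW hdet hn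
    by_cases hle : V.card + 1 ≤ h
    · obtain ⟨U, hU, hUc⟩ := Finset.exists_subset_card_eq (s := W) (n := V.card + 1) (by omega)
      have d1 : Det P i U (W \ U) := Det.attack hs hi hVW hU hUc hdet
      have h3 : (W \ U).card = h - (V.card + 1) := by
        rw [Finset.card_sdiff_of_subset hU, hW, hUc]
      have h4 : U.card ^ 2 + U.card + 2 * (h - (V.card + 1)) =
          V.card ^ 2 + V.card + 2 * h := by
        obtain ⟨m, rfl⟩ := Nat.exists_eq_add_of_le hle
        rw [hUc, Nat.add_sub_cancel_left]
        ring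
      obtain ⟨V', h5, h6, h7⟩ := ih (h - (V.card + 1)) (by omega) U (W \ U) h3
        Finset.disjoint_sdiff d1 (by rw [h4]; exact hn)
      rw [h4] at h7
      exact ⟨V', h5, h6, h7⟩
    · have h2 : 2 * V.card < n := by
        by_contra hcon
        push Not at hcon
        nlinarith
      have hVc : (Vᶜ).card = n - V.card := by rw [Finset.card_compl, Fintype.card_fin]
      obtain ⟨W', hW1, hW2, hWc⟩ := Finset.exists_subsuperset_card_eq (s := W) (t := Vᶜ)
        (n := V.card + 1)
        (fun p hp => Finset.mem_compl.2 fun hp' => Finset.disjoint_left.1 hVW hp' hp)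
        (by omega) (by omega)
      have hdis : Disjoint V W' := by
        rw [Finset.disjoint_left]
        intro p hp hp'
        exact (Finset.mem_compl.1 (hW2 hp')) hp
      have d2 : Det P i W' (W' \ W') := Det.attack hs hi hdis (Finset.Subset.refl W')
        (by rw [hWc]) (hdet.mono (Finset.Subset.refl V) hW1)
      rw [Finset.sdiff_self] at d2
      refine ⟨W', Finset.card_pos.1 (by omega), d2, ?_⟩
      rw [hWc]
      nlinarith

/-- After the first round no minority knows the value. -/
theorem not_det_one (hs : FairSecure rushing (sumZero n) d r P) (hr : 0 < r) {V : Finset (Fin n)}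
    (hne : V.Nonempty) (h2 : 2 * V.card < n) : ¬ Det P 1 V ∅ := by
  intro h
  have hVc : (Vᶜ).card = n - V.card := by rw [Finset.card_compl, Fintype.card_fin]
  obtain ⟨U, hU, hUc⟩ := Finset.exists_subset_card_eq (s := Vᶜ) (n := V.card + 1) (by omega)
  have d1 : Det P 0 U (Vᶜ \ U) := Det.attack hs hr disjoint_compl_right hU hUc h.succ
  refine not_det_zero ?_ d1
  obtain ⟨v, hv⟩ := hne
  refine ⟨v, Finset.mem_compl.2 fun hv' => ?_⟩
  rcases Finset.mem_union.1 hv' with h | h
  · exact (Finset.mem_compl.1 (hU h)) hv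
  · exact (Finset.mem_compl.1 (Finset.mem_sdiff.1 h).1) hv

/-- The lower bound for one function. -/
theorem rounds_lower (hn : 2 ≤ n) (hs : FairSecure rushing (sumZero n) d r P) : n + 6 ≤ 8 * r := by
  by_contra hcon
  push Not at hcon
  have p : Fin n := ⟨0, by omega⟩
  rcases Nat.eq_zero_or_pos r with rfl | hr
  · refine not_det_zero ?_ (Det.start hs p)
    refine Finset.card_pos.1 ?_
    rw [Finset.card_compl, Fintype.card_fin, Finset.union_empty, Finset.card_singleton]
    omega
  · have key : ∀ k, k + 1 ≤ r →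
        ∃ V : Finset (Fin n), V.Nonempty ∧ Det P (r - k) V ∅ ∧
          V.card ^ 2 ≤ V.card + 2 * n * k := by
      intro k
      induction k with
      | zero =>
        intro _
        exact ⟨{p}, Finset.singleton_nonempty p, Det.start hs p, by simp⟩
      | succ k ih =>
        intro hk
        obtain ⟨V, hV1, hV2, hV3⟩ := ih (by omega)
        have h1 : r - k = (r - (k + 1)) + 1 := by omega
        rw [h1] at hV2
        have hVn : V.card ≤ n := by simpa using Finset.card_le_univ V
        have hVc : (Vᶜ).card = n - V.card := by rw [Finset.card_compl, Fintype.card_fin]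
        have h2 : V.card ^ 2 + V.card + 2 * (n - V.card) ≤ 2 * n * (k + 1) := by
          obtain ⟨m, hm⟩ := Nat.exists_eq_add_of_le hVn
          have h3 : n - V.card = m := by omega
          rw [h3]
          nlinarith
        have h4 : 8 * (k + 1) + 2 < n := by omega
        have h5 : 4 * (2 * n * (k + 1)) + 2 * n < n ^ 2 := by nlinarith
        obtain ⟨V', h6, h7, h8⟩ := Det.chain hs (i := r - (k + 1)) (by omega) (n - V.card) V Vᶜ
          hVc disjoint_compl_right hV2.succ (by omega)
        exact ⟨V', h6, h7, by omega⟩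
    obtain ⟨V, hV1, hV2, hV3⟩ := key (r - 1) (by omega)
    have h1 : r - (r - 1) = 1 := by omega
    rw [h1] at hV2
    refine not_det_one hs hr hV1 ?_ hV2
    by_contra hge
    push Not at hge
    obtain ⟨m, rfl⟩ : ∃ m, r = m + 1 := ⟨r - 1, by omega⟩
    rw [Nat.add_sub_cancel] at hV3
    have h4 : 8 * m + 2 < n := by omega
    have hpos := Finset.card_pos.2 hV1
    -- `4 (T ^ 2 - T) ≤ 8 n m < n (n - 2)`
    obtain ⟨e, he⟩ : ∃ e, 2 * V.card = n + e := Nat.exists_eq_add_of_le hge
    nlinarith [Nat.zero_le e, Nat.zero_le m]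

/-- The number of rounds grows linearly. -/
theorem R_lower (hn : 2 ≤ n) : (n : ℕ∞) + 6 ≤ 8 * R rushing n := by
  have h1 : (((n + 13) / 8 : ℕ) : ℕ∞) ≤ R rushing n := by
    unfold R
    refine le_iInf₂ fun r hr => ?_
    obtain ⟨d, P, hP⟩ := hr (ZMod 3) Bool (sumZero n)
    have := rounds_lower hn hP
    exact_mod_cast (by omega : (n + 13) / 8 ≤ r)
  calc (n : ℕ∞) + 6 = ((n + 6 : ℕ) : ℕ∞) := by push_cast; rfl
    _ ≤ ((8 * ((n + 13) / 8) : ℕ) : ℕ∞) := by exact_mod_cast (by omega)
    _ = 8 * (((n + 13) / 8 : ℕ) : ℕ∞) := by push_cast; rfl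
    _ ≤ 8 * R rushing n := by gcongr

end Pool.Agent.Helper90.RC
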