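import Mathlib
import Pool.Agent.Helper90.RC.Main

/-!
# The model is not vacuous: two parties need exactly one round

For `n = 2` no party can be actively or passively corrupted and at most one party can
fail-stop. In one round the parties exchange their inputs; a missing input is replaced by the
default input.
-/

set_option autoImplicit false

namespace Pool.Agent.Helper90.RC

open Finset

variable {X Y : Type}

/-- The protocol in which all parties exchange their inputs. -/
noncomputable def exchange (f : (Fin 2 → X) → Y) (d : Fin 2 → X) : Protocol 2 X Y where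
  Tape := Unit
  M := X
  B := Unit
  tapeLaw := fun _ => PMF.pure ()
  send := fun _ x _ _ => (fun _ => x, ())
  out := fun p x _ l => some (f fun q => if q = p then x else
    match l with
    | [] => d q
    | m :: _ => (m q).1.getD (d q))

section
variable (f : (Fin 2 → X) → Y) (d : Fin 2 → X) (A : Adversary (exchange f d))
  (hA : A.Legal 1)

include hA in
theorem exchange_corrupt [Nonempty X] : A.act = ∅ ∧ A.pas = ∅ := by
  obtain ⟨x⟩ := (inferInstance : Nonempty (Fin 2 → X))
  obtain ⟨c, hc⟩ := A.coinLaw.support_nonempty
  have h := hA.2 x (fun _ => ()) c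
  constructor
  · rw [← Finset.card_eq_zero]; omega
  · rw [← Finset.card_eq_zero]; omega

/-- The view of the adversary without corrupted parties. -/
def emptyView (i : ℕ) : View 2 X (exchange f d).Tape (exchange f d).M (exchange f d).B :=
  ⟨i, fun _ => none, fun _ => none, fun _ => none⟩

/-- The ideal adversary. -/
noncomputable def exchangeSim : Simulator 2 X Y A.Out where
  Coins := A.Coins
  coinLaw := A.coinLaw
  inp := fun _ _ => d
  crash := fun c _ => A.crash c (emptyView f d 0)
  abort := fun _ _ => false
  late := fun _ _ _ => ∅
  out := fun c _ _ => A.out c (emptyView f d 1)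

theorem exchange_view (hc : A.act = ∅ ∧ A.pas = ∅) (x : Fin 2 → X)
    (ω : Fin 2 → (exchange f d).Tape) (i : ℕ)
    (s : State 2 (exchange f d).M (exchange f d).B) : A.view x ω i s = emptyView f d i := by
  unfold Adversary.view emptyView mask
  rw [hc.1, hc.2]
  simp

theorem exchange_real (hc : A.act = ∅ ∧ A.pas = ∅) (x : Fin 2 → X)
    (ω : Fin 2 → (exchange f d).Tape) (c : A.Coins) :
    A.real 1 x ω c = (exchangeSim f d A).ideal A.act A.pas f d x c := by
  have hF : A.failed x ω c 0 ⟨∅, fun _ => []⟩ = A.crash c (emptyView f d 0) := by
    unfold Adversary.failed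
    rw [exchange_view f d A hc, hc.1, hc.2]
    simp
  have hF' : (exchangeSim f d A).failed A.act A.pas f d x c = A.crash c (emptyView f d 0) := by
    unfold Simulator.failed Simulator.early
    rw [hc.1, hc.2]
    show (A.crash c (emptyView f d 0) \ (∅ ∪ ∅)) ∪ (∅ \ (∅ ∪ ∅)) = _
    simp
  have hE' : (exchangeSim f d A).early A.act A.pas x c = A.crash c (emptyView f d 0) := by
    unfold Simulator.early
    rw [hc.1, hc.2]
    show (A.crash c (emptyView f d 0) \ (∅ ∪ ∅)) = _
    simp
  unfold Adversary.real Simulator.ideal
  refine Prod.ext ?_ ?_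
  · show A.out c (A.view x ω 1 (A.run x ω c 1)) = A.out c (emptyView f d 1)
    rw [exchange_view f d A hc]
  · funext p
    show (if p ∈ A.act ∪ (A.run x ω c 1).crashed then none
      else some ((exchange f d).out p (x p) (ω p) ((A.run x ω c 1).hist p))) =
      (if p ∈ A.act ∪ (exchangeSim f d A).failed A.act A.pas f d x c then none
        else some ((exchangeSim f d A).result A.act A.pas f d x c))
    have h1 : (A.run x ω c 1).crashed = A.crash c (emptyView f d 0) := hF
    rw [hF', h1]
    by_cases hp : p ∈ A.act ∪ A.crash c (emptyView f d 0)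
    · rw [if_pos hp, if_pos hp]
    · rw [if_neg hp, if_neg hp]
      congr 1
      have hp' : p ∉ A.crash c (emptyView f d 0) := fun h => hp (Finset.mem_union_right _ h)
      unfold Simulator.result
      rw [if_neg (by show ¬ (false = true); simp)]
      show some (f fun q => if q = p then x p else
        (((if q ∈ A.act then _ else A.honest x ω c 0 ⟨∅, fun _ => []⟩ p q) :
          Option X × Option Unit)).1.getD (d q)) = some (f _)
      congr 2
      funext q
      unfold Simulator.inputs
      rw [hE', if_neg (show q ∉ A.act by rw [hc.1]; exact Finset.notMem_empty q),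
        if_neg (show q ∉ A.act by rw [hc.1]; exact Finset.notMem_empty q)]
      unfold Adversary.honest
      rw [hF, hc.1, Finset.empty_union]
      by_cases hq : q = p
      · subst hq
        rw [if_pos rfl, if_neg hp']
      · rw [if_neg hq]
        by_cases hq' : q ∈ A.crash c (emptyView f d 0)
        · rw [if_pos hq', if_pos hq']
          rfl
        · rw [if_neg hq', if_neg hq']
          rfl

end

/-- Two parties need only one round. -/
theorem allFair_two (rushing : Bool) : AllFair rushing 2 1 := by
  intro X Y _ _ _ f
  obtain ⟨d⟩ := (inferInstance : Nonempty (Fin 2 → X))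
  refine ⟨d, fun _ => exchange f d, ⟨fun _ => 0, fun m => ⟨0, fun κ _ => by simp⟩, ?_⟩, ?_⟩
  · intro κ x
    refine le_of_eq (prob_empty _ fun ω => ?_)
    rintro ⟨p, hp⟩
    apply hp
    show some (f fun q => if q = p then x p else x q) = some (f x)
    congr 2
    funext q
    by_cases h : q = p
    · rw [if_pos h, h]
    · rw [if_neg h]
  · intro A hA _
    refine ⟨fun κ => exchangeSim f d (A κ), fun κ x c => ?_, fun _ => 0,
      fun m => ⟨0, fun κ _ => by simp⟩, fun κ x E => ?_⟩
    · have hc := exchange_corrupt f d (A κ) (hA κ)
      have h := (hA κ).2 x (fun _ => ()) c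
      have h2 : ((A κ).run x (fun _ => ()) c 1).crashed =
          (exchangeSim f d (A κ)).failed (A κ).act (A κ).pas f d x c := by
        show (A κ).failed x (fun _ => ()) c 0 ⟨∅, fun _ => []⟩ = _
        unfold Adversary.failed Simulator.failed Simulator.early
        rw [exchange_view f d (A κ) hc, hc.1, hc.2]
        show ∅ ∪ ((A κ).crash c (emptyView f d 0) \ (∅ ∪ ∅)) =
          ((A κ).crash c (emptyView f d 0) \ (∅ ∪ ∅)) ∪ (∅ \ (∅ ∪ ∅))
        simp
      rw [← h2]
      exact h
    · have hc := exchange_corrupt f d (A κ) (hA κ)
      have h1 : (A κ).realLaw 1 x =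
          (exchangeSim f d (A κ)).idealLaw (A κ).act (A κ).pas f d x := by
        unfold Adversary.realLaw Simulator.idealLaw
        have h2 : ∀ ω, (A κ).coinLaw.map (fun c => (A κ).real 1 x ω c) =
            (A κ).coinLaw.map fun c =>
              (exchangeSim f d (A κ)).ideal (A κ).act (A κ).pas f d x c := by
          intro ω
          congr 1
          funext c
          exact exchange_real f d (A κ) hc x ω c
        simp only [h2]
        exact PMF.bind_const _ _
      rw [h1, sub_self, abs_zero]

/-- The bound `n + 6 ≤ 8 * R n` is attained for `n = 2`. -/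
theorem R_two (rushing : Bool) : R rushing 2 = 1 := by
  apply le_antisymm
  · unfold R
    have := iInf₂_le (f := fun (r : ℕ) (_ : r ∈ {r : ℕ | AllFair rushing 2 r}) => (r : ℕ∞)) 1
      (allFair_two rushing)
    simpa using this
  · have h := R_lower (n := 2) (rushing := rushing) le_rfl
    by_contra hcon
    rw [not_le, Order.lt_one_iff] at hcon
    rw [hcon] at h
    norm_num at h

end Pool.Agent.Helper90.RC
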